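import Pool.Agent.Lib.helper12.ConjB

set_option autoImplicit false

namespace Pool.Agent.Results.MP_eff972_al.Full

/-- elements of word length at most `n` over `S` and its inverses -/
def ball {G : Type} [Group G] (S : Finset G) (n : ℕ) : Set G :=
  {g | ∃ l : List G, l.length ≤ n ∧ (∀ s ∈ l, s ∈ S ∨ s⁻¹ ∈ S) ∧ l.prod = g}

/-- number of `Aut(G)`-orbits meeting the ball of radius `n` -/
noncomputable def autGrowth {G : Type} [Group G] (S : Finset G) (n : ℕ) : ℕ :=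
  {O : Set G | ∃ g ∈ ball S n, O = {h | ∃ φ : G ≃* G, φ g = h}}.ncard

/-- the preorder on growth functions -/
def Prec (f g : ℕ → ℕ) : Prop := ∃ l : ℕ, 1 ≤ l ∧ ∀ n, f n ≤ l * g (l * n + l) + l

open Pool.Agent.Lib.helper12

@[ext] structure H where
  e : ℤˣ
  x : ℤ
  y : ℤ
  w : ℤ
deriving DecidableEq

instance : Mul H := ⟨fun g h => ⟨g.e * h.e, g.e * h.x + g.x, g.y + h.y, g.e * h.w + g.x * h.y + g.w⟩⟩
instance : One H := ⟨⟨1, 0, 0, 0⟩⟩
instance : Inv H := ⟨fun g => ⟨g.e, -g.e * g.x, -g.y, g.e * (g.x * g.y - g.w)⟩⟩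

@[simp] lemma mul_e (g h : H) : (g * h).e = g.e * h.e := rfl
@[simp] lemma mul_x (g h : H) : (g * h).x = g.e * h.x + g.x := rfl
@[simp] lemma mul_y (g h : H) : (g * h).y = g.y + h.y := rfl
@[simp] lemma mul_w (g h : H) : (g * h).w = g.e * h.w + g.x * h.y + g.w := rfl
@[simp] lemma one_e : (1 : H).e = 1 := rfl
@[simp] lemma one_x : (1 : H).x = 0 := rfl
@[simp] lemma one_y : (1 : H).y = 0 := rfl
@[simp] lemma one_w : (1 : H).w = 0 := rfl
@[simp] lemma inv_e (g : H) : g⁻¹.e = g.e := rfl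
@[simp] lemma inv_x (g : H) : g⁻¹.x = -g.e * g.x := rfl
@[simp] lemma inv_y (g : H) : g⁻¹.y = -g.y := rfl
@[simp] lemma inv_w (g : H) : g⁻¹.w = g.e * (g.x * g.y - g.w) := rfl

instance : Group H := Group.ofLeftAxioms
  (fun a b c => by ext <;> simp <;> ring)
  (fun a => by ext <;> simp)
  (fun a => by rcases Int.units_eq_one_or a.e with h | h <;> ext <;> simp [h] <;> ring)

def a : H := ⟨1, 1, 0, 0⟩
def b : H := ⟨1, 0, 1, 0⟩
def s : H := ⟨-1, 0, 0, 0⟩
def z : H := ⟨1, 0, 0, 1⟩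
def S : Finset H := {a, b, s}

lemma zp (x y w n : ℤ) (h : x * y = 0) : (⟨1, x, y, w⟩ : H) ^ n = ⟨1, n * x, n * y, n * w⟩ := by
  induction n using Int.induction_on with
  | zero => simp; rfl
  | succ n ih => rw [zpow_add_one, ih]; ext <;> simp <;> [ring; ring; linear_combination n * h]
  | pred n ih => rw [zpow_sub_one, ih]; ext <;> simp <;> [ring; ring; linear_combination (n + 1) * h]

lemma z_eq : z = a * b * a⁻¹ * b⁻¹ := by decide

lemma nf (x y w : ℤ) : (⟨1, x, y, w⟩ : H) = z ^ w * (b ^ y * a ^ x) := by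
  rw [z, a, b, zp _ _ _ _ (by simp), zp _ _ _ _ (by simp), zp _ _ _ _ (by simp)]
  ext <;> simp

lemma S_gen : Subgroup.closure (S : Set H) = ⊤ := by
  have ha : a ∈ Subgroup.closure (S : Set H) := Subgroup.subset_closure (by simp [S])
  have hb : b ∈ Subgroup.closure (S : Set H) := Subgroup.subset_closure (by simp [S])
  have hs : s ∈ Subgroup.closure (S : Set H) := Subgroup.subset_closure (by simp [S])
  have h : ∀ x y w, (⟨1, x, y, w⟩ : H) ∈ Subgroup.closure (S : Set H) := fun x y w => by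
    rw [nf, z_eq]
    exact mul_mem (zpow_mem (mul_mem (mul_mem (mul_mem ha hb) (inv_mem ha)) (inv_mem hb)) _)
      (mul_mem (zpow_mem hb _) (zpow_mem ha _))
  rw [eq_top_iff]
  rintro ⟨e, x, y, w⟩ -
  rcases Int.units_eq_one_or e with rfl | rfl
  · exact h x y w
  · have : (⟨-1, x, y, w⟩ : H) = ⟨1, x, y, w⟩ * s := by ext <;> simp [s]
    rw [this]; exact mul_mem (h _ _ _) hs

lemma aut (φ : H ≃* H) : ∃ p q u v : ℤ, ∀ x y w,
    φ ⟨1, x, y, w⟩ = ⟨1, p * x, q * y, p * q * w + u * x + v * y⟩ := by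
  have r1 : φ s * φ s = 1 := by rw [← map_mul, ← map_one φ]; congr 1
  have r2 : φ s * φ a * φ s * φ a = 1 := by
    rw [← map_mul, ← map_mul, ← map_mul, ← map_one φ]; congr 1
  have r3 : φ s * φ b = φ b * φ s := by rw [← map_mul, ← map_mul]; congr 1
  have r4 : φ z = φ a * φ b * (φ a)⁻¹ * (φ b)⁻¹ := by simp [z_eq]
  have r5 : φ z * φ b = φ b * φ z := by rw [← map_mul, ← map_mul]; congr 1
  have n1 : φ s ≠ 1 := fun h => absurd (φ.map_eq_one_iff.1 h) (by decide)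
  have n2 : φ a * φ a ≠ 1 := fun h => absurd (φ.map_eq_one_iff.1 ((map_mul φ a a).trans h)) (by decide)
  have n3 : φ z ≠ 1 := fun h => absurd (φ.map_eq_one_iff.1 h) (by decide)
  have key : ∀ x y w, φ ⟨1, x, y, w⟩ = φ z ^ w * (φ b ^ y * φ a ^ x) := fun x y w => by
    rw [nf]; simp
  generalize φ s = s' at *
  generalize φ z = z' at *
  generalize φ a = a' at *
  generalize φ b = b' at *
  obtain ⟨e1, x1, y1, w1⟩ := s'
  obtain ⟨e2, x2, y2, w2⟩ := a'
  obtain ⟨e3, x3, y3, w3⟩ := b'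
  obtain rfl : y1 = 0 := by have := congrArg H.y r1; simp at this; omega
  obtain rfl : y2 = 0 := by have := congrArg H.y r2; simp at this; omega
  obtain rfl : e1 = -1 := by
    rcases Int.units_eq_one_or e1 with rfl | rfl
    · have h1 := congrArg H.x r1
      have h2 := congrArg H.w r1
      simp at h1 h2
      exact absurd (by ext <;> simp <;> omega) n1
    · rfl
  obtain rfl : e2 = 1 := by
    rcases Int.units_eq_one_or e2 with rfl | rfl
    · rfl
    · exact absurd (by ext <;> simp) n2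
  obtain rfl : e3 = 1 := by
    rcases Int.units_eq_one_or e3 with rfl | rfl
    · rfl
    · subst r4
      have h1 := congrArg H.x r5
      have h2 := congrArg H.w r5
      simp at h1 h2
      obtain rfl : x2 = 0 := by omega
      exact absurd (by ext <;> simp <;> linarith) n3
  obtain rfl : x3 = 0 := by have := congrArg H.x r3; simp at this; omega
  obtain rfl : z' = ⟨1, 0, 0, x2 * y3⟩ := by rw [r4]; ext <;> simp
  refine ⟨x2, y3, w2, w3, fun x y w => ?_⟩
  rw [key, zp _ _ _ _ (by simp), zp _ _ _ _ (by simp), zp _ _ _ _ (by simp)]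
  ext <;> simp <;> ring

lemma bnd (n : ℕ) : ∀ g ∈ Conj.ball S n, |g.x| ≤ n ∧ |g.y| ≤ n ∧ |g.w| ≤ n ^ 2 := by
  induction n with
  | zero => intro g hg; rw [Conj.ball_zero] at hg; subst hg; simp
  | succ n ih =>
    intro g hg
    obtain ⟨t, h, ht, hh, rfl⟩ := Conj.ball_succ.1 hg
    obtain ⟨h1, h2, h3⟩ := ih h hh
    have : t = 1 ∨ t = a ∨ t = b ∨ t = s ∨ t = a⁻¹ ∨ t = b⁻¹ ∨ t = s⁻¹ := by
      rcases ht with h | h | h
      · exact Or.inl h
      · simp only [S, Finset.mem_insert, Finset.mem_singleton] at h; tauto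
      · simp only [S, Finset.mem_insert, Finset.mem_singleton, inv_eq_iff_eq_inv] at h; tauto
    rw [abs_le] at h1 h2 h3
    have e : ((n + 1 : ℕ) : ℤ) ^ 2 = n ^ 2 + 2 * n + 1 := by push_cast; ring
    rw [e, abs_le, abs_le, abs_le]
    rcases this with rfl | rfl | rfl | rfl | rfl | rfl | rfl <;> simp [a, b, s] <;> omega

def orb (g : H) : Set H := {h | ∃ φ : H ≃* H, φ g = h}

lemma orb_conj (c g : H) : orb (c * g * c⁻¹) = orb g := by
  ext h
  constructor
  · rintro ⟨φ, rfl⟩; exact ⟨(MulAut.conj c).trans φ, rfl⟩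
  · rintro ⟨φ, rfl⟩; exact ⟨(MulAut.conj c).symm.trans φ, by simp [mul_assoc]⟩

lemma orb_eq (n : ℕ) : autGrowth S n = (orb '' Conj.ball S n).ncard := by
  unfold autGrowth; congr 1; ext O; simp [eq_comm, orb]; rfl

lemma upper (n : ℕ) : (autGrowth S n : ℝ) ≤ 20 * (n + 1) ^ 2 * (1 + Real.log (n + 1)) := by
  let R1 := ((Finset.Icc 1 n).sigma fun d : ℕ => (Finset.Icc (-((n / d : ℕ) : ℤ)) (n / d : ℕ) ×ˢ
    Finset.Icc (-((n / d : ℕ) : ℤ)) (n / d : ℕ)) ×ˢ Finset.Ico (0 : ℤ) d).image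
    fun p => (⟨1, p.1 * p.2.1.1, p.1 * p.2.1.2, p.2.2⟩ : H)
  let R2 := (Finset.Icc (-(n : ℤ) ^ 2) (n ^ 2)).image fun w => (⟨1, 0, 0, w⟩ : H)
  let R3 := ((Finset.Ico (0 : ℤ) 2 ×ˢ Finset.Ico (0 : ℤ) 2) ×ˢ Finset.Icc (-(n : ℤ)) n).image
    fun p => (⟨-1, p.1.1, p.2, p.1.2⟩ : H)
  have sub : orb '' Conj.ball S n ⊆ orb '' ((R1 ∪ R2 ∪ R3 : Finset H) : Set H) := by
    rintro _ ⟨⟨e, x, y, w⟩, hg, rfl⟩
    obtain ⟨h1, h2, h3⟩ := bnd n _ hg
    simp only at h1 h2 h3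
    rcases Int.units_eq_one_or e with rfl | rfl
    · by_cases h0 : Int.gcd x y = 0
      · obtain ⟨rfl, rfl⟩ := Int.gcd_eq_zero_iff.1 h0
        exact ⟨_, Finset.mem_union_left _ (Finset.mem_union_right _ (Finset.mem_image.2
          ⟨w, Finset.mem_Icc.2 (abs_le.1 h3), rfl⟩)), rfl⟩
      · have hd : (0 : ℤ) < Int.gcd x y := by omega
        refine ⟨_, Finset.mem_union_left _ (Finset.mem_union_left _ (Finset.mem_image.2
          ⟨⟨Int.gcd x y, (x / Int.gcd x y, y / Int.gcd x y), w % Int.gcd x y⟩, ?_, rfl⟩)), ?_⟩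
        · have key : ∀ t : ℤ, |t| ≤ n → (Int.gcd x y : ℤ) ∣ t →
              t / Int.gcd x y ∈ Finset.Icc (-((n / Int.gcd x y : ℕ) : ℤ)) (n / Int.gcd x y : ℕ) := by
            rintro _ ht ⟨c, rfl⟩
            rw [Int.mul_ediv_cancel_left _ hd.ne', Finset.mem_Icc, ← abs_le]
            push_cast
            rw [Int.le_ediv_iff_mul_le hd]
            rwa [abs_mul, abs_of_pos hd, mul_comm] at ht
          simp only [Finset.mem_sigma, Finset.mem_product, Finset.mem_Ico]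
          refine ⟨Finset.mem_Icc.2 ⟨by omega, ?_⟩, ⟨key x h1 (Int.gcd_dvd_left _ _),
            key y h2 (Int.gcd_dvd_right _ _)⟩, Int.emod_nonneg _ hd.ne', Int.emod_lt_of_pos _ hd⟩
          by_cases hx : x = 0
          · subst hx; rw [Int.gcd_zero_left]; rw [Int.abs_eq_natAbs] at h2; omega
          · have := Int.gcd_le_natAbs_left y hx
            rw [Int.abs_eq_natAbs] at h1; omega
        · rw [← orb_conj ⟨1, -(w / Int.gcd x y) * Int.gcdB x y, (w / Int.gcd x y) * Int.gcdA x y, 0⟩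
            ⟨1, x, y, w⟩]
          congr 1
          ext
          · simp
          · simp [Int.mul_ediv_cancel' (Int.gcd_dvd_left x y)]
          · simp [Int.mul_ediv_cancel' (Int.gcd_dvd_right x y)]
          · simp only [mul_w, mul_e, mul_x, inv_w, inv_y, Int.emod_def]
            conv_lhs => enter [2, 1]; rw [Int.gcd_eq_gcd_ab]
            simp; ring
    · refine ⟨_, Finset.mem_union_right _ (Finset.mem_image.2
        ⟨((x % 2, (w - x / 2 * y) % 2), y), ?_, rfl⟩), ?_⟩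
      · simp only [Finset.mem_product, Finset.mem_Ico, Finset.mem_Icc]
        rw [abs_le] at h2
        omega
      · rw [← orb_conj ⟨1, -(x / 2), 0, -((w - x / 2 * y) / 2)⟩ ⟨-1, x, y, w⟩]
        congr 1
        ext <;> simp <;> omega
  have h1 : autGrowth S n ≤ R1.card + R2.card + R3.card := by
    rw [orb_eq]
    refine (Set.ncard_le_ncard sub ((Finset.finite_toSet _).image _)).trans
      ((Set.ncard_image_le (Finset.finite_toSet _)).trans ?_)
    rw [Set.ncard_coe_finset]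
    exact (Finset.card_union_le _ _).trans (Nat.add_le_add_right (Finset.card_union_le _ _) _)
  have h2 : R2.card ≤ 2 * n ^ 2 + 1 := Finset.card_image_le.trans (by
    rw [Int.card_Icc]; exact le_of_eq (by zify; rw [Int.toNat_of_nonneg (by nlinarith)]; ring))
  have h3 : R3.card ≤ 4 * (2 * n + 1) := Finset.card_image_le.trans (by
    simp only [Finset.card_product, Int.card_Icc, Int.card_Ico]
    change 2 * 2 * _ ≤ _
    omega)
  have h4 : (R1.card : ℝ) ≤ 9 * n ^ 2 * (1 + Real.log n) := by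
    have a1 : R1.card ≤ ∑ d ∈ Finset.Icc 1 n, (2 * (n / d) + 1) * (2 * (n / d) + 1) * d :=
      Finset.card_image_le.trans (by
        rw [Finset.card_sigma]
        refine le_of_eq (Finset.sum_congr rfl fun d _ => ?_)
        simp only [Finset.card_product, Int.card_Icc, Int.card_Ico]
        congr 2 <;> omega)
    have a2 : (harmonic n : ℝ) ≤ 1 + Real.log n := harmonic_le_one_add_log n
    rw [harmonic_eq_sum_Icc] at a2
    push_cast at a2
    calc (R1.card : ℝ) ≤ ((∑ d ∈ Finset.Icc 1 n,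
          (2 * (n / d) + 1) * (2 * (n / d) + 1) * d : ℕ) : ℝ) := by exact_mod_cast a1
      _ ≤ ∑ d ∈ Finset.Icc 1 n, 9 * (n : ℝ) ^ 2 * (d : ℝ)⁻¹ := by
          rw [Nat.cast_sum]
          refine Finset.sum_le_sum fun d hd => ?_
          obtain ⟨d1, d2⟩ := Finset.mem_Icc.1 hd
          have b1 : 1 ≤ n / d := (Nat.le_div_iff_mul_le (by omega)).2 (by omega)
          have b2 : (2 * (n / d) + 1) * d ≤ 3 * n := by nlinarith [Nat.div_mul_le_self n d]
          have b3 : ((2 * (n / d) + 1) * (2 * (n / d) + 1) * d) * d ≤ 9 * n ^ 2 := by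
            nlinarith [Nat.mul_le_mul b2 b2]
          have b4 : (0 : ℝ) < d := by exact_mod_cast d1
          rw [← div_eq_mul_inv, le_div_iff₀ b4]
          exact_mod_cast b3
      _ ≤ _ := by rw [← Finset.mul_sum]; gcongr
  have h5 : (autGrowth S n : ℝ) ≤ R1.card + (2 * n ^ 2 + 1 + 4 * (2 * n + 1)) := by
    exact_mod_cast (show autGrowth S n ≤ R1.card + (2 * n ^ 2 + 1 + 4 * (2 * n + 1)) by omega)
  have h6 : Real.log n ≤ Real.log (n + 1) := by
    rcases Nat.eq_zero_or_pos n with rfl | hn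
    · simp
    · exact Real.log_le_log (by exact_mod_cast hn) (by linarith)
  have h7 : 0 ≤ Real.log n := Real.log_natCast_nonneg n
  have h8 : (0 : ℝ) ≤ n := n.cast_nonneg
  nlinarith [mul_le_mul_of_nonneg_left h6 (sq_nonneg (n : ℝ)), mul_nonneg h8 (h7.trans h6)]

lemma pow_mem_ball {t : H} (ht : t ∈ S ∨ t⁻¹ ∈ S) (k : ℕ) : t ^ k ∈ Conj.ball S k :=
  ⟨List.replicate k t, by simp, fun x hx => by rwa [List.eq_of_mem_replicate hx], by simp⟩

lemma mem_ball (n x y w : ℕ) (hx : x ≤ n) (hy : y ≤ n) (hw : w ≤ n) :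
    (⟨1, x, y, w⟩ : H) ∈ Conj.ball S (4 * n + 2) := by
  have : (⟨1, x, y, w⟩ : H) = a ^ w * b ^ 1 * a⁻¹ ^ w * b⁻¹ ^ 1 * (b ^ y * a ^ x) := by
    rw [inv_pow, ← zpow_natCast, ← zpow_natCast a, ← zpow_natCast b y, a, b, zp _ _ _ _ (by simp),
      zp _ _ _ _ (by simp), zp _ _ _ _ (by simp)]
    ext <;> simp
  rw [this]
  have ha : a ∈ S := by simp [S]
  have hb : b ∈ S := by simp [S]
  exact Conj.ball_mono (by omega) (Conj.ball_mul (Conj.ball_mul (Conj.ball_mul (Conj.ball_mul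
    (pow_mem_ball (Or.inl ha) w) (pow_mem_ball (Or.inl hb) 1))
    (pow_mem_ball (Or.inr (by simpa using ha)) w)) (pow_mem_ball (Or.inr (by simpa using hb)) 1))
    (Conj.ball_mul (pow_mem_ball (Or.inl hb) y) (pow_mem_ball (Or.inl ha) x)))

lemma sep {x y w x' y' w' : ℕ} (hx : 0 < x) (hy : 0 < y) (hw : w < x.gcd y) (hw' : w' < x'.gcd y')
    (h : orb ⟨1, x, y, w⟩ = orb ⟨1, x', y', w'⟩) : x = x' ∧ y = y' ∧ w = w' := by
  obtain ⟨φ, hφ⟩ : (⟨1, x', y', w'⟩ : H) ∈ orb ⟨1, x, y, w⟩ := h ▸ ⟨MulEquiv.refl _, rfl⟩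
  obtain ⟨p, q, u, v, h1⟩ := aut φ
  obtain ⟨p', q', u', v', h2⟩ := aut φ.symm
  have h3 := h2 x' y' w'
  rw [← hφ, φ.symm_apply_apply] at h3
  rw [h1] at hφ
  simp only [H.mk.injEq, true_and] at hφ h3
  obtain ⟨a1, a2, a3⟩ := hφ
  obtain rfl : x = x' := Nat.dvd_antisymm (Int.natCast_dvd_natCast.1 ⟨p, by linarith⟩)
    (Int.natCast_dvd_natCast.1 ⟨p', by linarith [h3.1]⟩)
  obtain rfl : y = y' := Nat.dvd_antisymm (Int.natCast_dvd_natCast.1 ⟨q, by linarith⟩)
    (Int.natCast_dvd_natCast.1 ⟨q', by linarith [h3.2.1]⟩)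
  obtain rfl : p = 1 := mul_right_cancel₀ (b := (x : ℤ)) (by omega) (by linarith)
  obtain rfl : q = 1 := mul_right_cancel₀ (b := (y : ℤ)) (by omega) (by linarith)
  refine ⟨rfl, rfl, ?_⟩
  have : ((x.gcd y : ℕ) : ℤ) ∣ (w' : ℤ) - w := by
    rw [show (w' : ℤ) - w = u * x + v * y by linarith]
    exact dvd_add (Dvd.dvd.mul_left (Int.natCast_dvd_natCast.2 (Nat.gcd_dvd_left x y)) _)
      (Dvd.dvd.mul_left (Int.natCast_dvd_natCast.2 (Nat.gcd_dvd_right x y)) _)
  have := Int.eq_zero_of_abs_lt_dvd this (abs_lt.2 (by omega))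
  omega

lemma lower (n K : ℕ) : ∑ p ∈ Nat.primesBelow K, (n / p) * (n / p) * (p - 1) ≤
    autGrowth S (4 * n + 2) := by
  let I := (Nat.primesBelow K).sigma fun p => (Finset.Icc 1 (n / p) ×ˢ Finset.Icc 1 (n / p)) ×ˢ
    Finset.Ico 1 p
  have hI : I.card = ∑ p ∈ Nat.primesBelow K, (n / p) * (n / p) * (p - 1) := by
    simp [I, Finset.card_sigma]
  rw [← hI, orb_eq, ← Set.ncard_coe_finset]
  have hm : ∀ t ∈ I, t.1.Prime ∧ 0 < t.1 * t.2.1.1 ∧ t.1 * t.2.1.1 ≤ n ∧ 0 < t.1 * t.2.1.2 ∧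
      t.1 * t.2.1.2 ≤ n ∧ 0 < t.2.2 ∧ t.2.2 < t.1 ∧ 0 < t.2.1.1.gcd t.2.1.2 := by
    rintro ⟨p, ⟨u, v⟩, j⟩ ht
    simp only [I, Finset.mem_sigma, Finset.mem_product, Finset.mem_Icc, Finset.mem_Ico] at ht
    obtain ⟨a1, ⟨⟨a2, a3⟩, a4, a5⟩, a6, a7⟩ := ht
    have hp := Nat.prime_of_mem_primesBelow a1
    rw [Nat.le_div_iff_mul_le hp.pos, mul_comm] at a3 a5
    exact ⟨hp, Nat.mul_pos hp.pos a2, a3, Nat.mul_pos hp.pos a4, a5, a6, a7,
      Nat.gcd_pos_of_pos_left _ a2⟩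
  have hw : ∀ t ∈ I, t.2.2 * t.2.1.1.gcd t.2.1.2 < (t.1 * t.2.1.1).gcd (t.1 * t.2.1.2) := by
    intro t ht
    obtain ⟨-, -, -, -, -, -, a, b⟩ := hm t ht
    rw [Nat.gcd_mul_left]
    exact Nat.mul_lt_mul_of_pos_right a b
  refine Set.ncard_le_ncard_of_injOn (fun t => orb ⟨1, (t.1 * t.2.1.1 : ℕ), (t.1 * t.2.1.2 : ℕ),
    (t.2.2 * t.2.1.1.gcd t.2.1.2 : ℕ)⟩) (fun t ht => ⟨_, ?_, rfl⟩) (fun t ht t' ht' e => ?_)
    ((Conj.ball_fin _ _).image _)
  · obtain ⟨-, a1, a2, -, a3, -⟩ := hm t ht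
    exact mem_ball n _ _ _ a2 a3 ((hw t ht).le.trans ((Nat.gcd_le_left _ a1).trans a2))
  · obtain ⟨a0, a1, -, a2, -, a3, a4, a5⟩ := hm t ht
    obtain ⟨b0, -, -, -, -, -, -, b5⟩ := hm t' ht'
    obtain ⟨c1, c2, c3⟩ := sep a1 a2 (hw t ht) (hw t' ht') e
    obtain ⟨p, ⟨u, v⟩, j⟩ := t
    obtain ⟨p', ⟨u', v'⟩, j'⟩ := t'
    simp only at *
    have d1 : p * u.gcd v = p' * u'.gcd v' := by rw [← Nat.gcd_mul_left, c1, c2, Nat.gcd_mul_left]
    have d2 : j * p' = p * j' := Nat.eq_of_mul_eq_mul_right (Nat.mul_pos a5 b5) (by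
      calc j * p' * (u.gcd v * u'.gcd v') = (j * u.gcd v) * (p' * u'.gcd v') := by ring
        _ = (j' * u'.gcd v') * (p * u.gcd v) := by rw [c3, d1]
        _ = _ := by ring)
    obtain rfl : p = p' := by
      rcases (Nat.Prime.dvd_mul a0).1 ⟨j', d2⟩ with h | h
      · exact absurd (Nat.le_of_dvd a3 h) (by omega)
      · exact (Nat.prime_dvd_prime_iff_eq a0 b0).1 h
    obtain rfl := Nat.eq_of_mul_eq_mul_left a0.pos c1
    obtain rfl := Nat.eq_of_mul_eq_mul_left a0.pos c2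
    obtain rfl := Nat.eq_of_mul_eq_mul_right a5 c3
    rfl

theorem result : ∃ (G : Type) (_ : Group G) (S : Finset G),
    Subgroup.closure (S : Set G) = ⊤ ∧ (∃ d : ℕ, Prec (autGrowth S) (fun n => n ^ d)) ∧
    ∀ k : ℕ, ¬ (Prec (autGrowth S) (fun n => n ^ k) ∧ Prec (fun n => n ^ k) (autGrowth S)) := by
  refine ⟨H, inferInstance, S, S_gen, ⟨3, 20, by norm_num, fun n => ?_⟩, ?_⟩
  · have h1 := upper n
    have h2 := Real.log_le_sub_one_of_pos (show (0 : ℝ) < n + 1 by positivity)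
    have h3 : (autGrowth S n : ℝ) ≤ 20 * (n + 1) ^ 3 := by
      refine h1.trans ?_
      rw [pow_succ _ 2, ← mul_assoc]
      exact mul_le_mul_of_nonneg_left (by linarith) (by positivity)
    have h4 : autGrowth S n ≤ 20 * (n + 1) ^ 3 := by exact_mod_cast h3
    exact h4.trans (le_add_right (Nat.mul_le_mul_left _ (Nat.pow_le_pow_left (by omega) _)))
  rintro k ⟨⟨l, hl, h⟩, ⟨l', hl', h'⟩⟩
  rcases le_or_gt k 2 with hk | hk
  · apply not_summable_one_div_on_primes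
    refine summable_of_sum_range_le (c := 100 * l ^ 3)
      (fun n => Set.indicator_nonneg (fun _ _ => by positivity) _) fun K => ?_
    have n0 : 1 ≤ K.factorial := K.factorial_pos
    have a1 : autGrowth S (4 * K.factorial + 2) ≤ 50 * l ^ 3 * K.factorial ^ 2 := by
      have b1 := Nat.pow_le_pow_right (show 0 < l * (4 * K.factorial + 2) + l by omega) hk
      have b2 : l * (4 * K.factorial + 2) + l ≤ 7 * l * K.factorial := by nlinarith
      have b3 := Nat.mul_le_mul_left l (b1.trans (Nat.pow_le_pow_left b2 2))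
      have b4 : l ≤ l ^ 3 * K.factorial ^ 2 :=
        le_trans (Nat.le_self_pow (by norm_num) l) (Nat.le_mul_of_pos_right _ (by positivity))
      have := h (4 * K.factorial + 2)
      nlinarith
    have a2 : ((∑ p ∈ Nat.primesBelow K, (K.factorial / p) * (K.factorial / p) * (p - 1) : ℕ) : ℝ) ≤
        50 * l ^ 3 * K.factorial ^ 2 := by exact_mod_cast (lower _ K).trans a1
    have a3 : ∑ i ∈ Finset.range K, Set.indicator {p | p.Prime} (fun n : ℕ => (1 : ℝ) / n) i =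
        ∑ p ∈ Nat.primesBelow K, (1 : ℝ) / p := by
      rw [Nat.primesBelow, Finset.sum_filter]
      exact Finset.sum_congr rfl fun i _ => by simp [Set.indicator_apply]
    have a4 : (0 : ℝ) < K.factorial ^ 2 := by positivity
    rw [a3]
    refine le_of_mul_le_mul_right ?_ a4
    rw [Finset.sum_mul]
    refine le_trans ?_ ((mul_le_mul_of_nonneg_left a2 zero_le_two).trans (le_of_eq (by ring)))
    rw [Nat.cast_sum, Finset.mul_sum]
    refine Finset.sum_le_sum fun p hp => ?_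
    have hp' := Nat.prime_of_mem_primesBelow hp
    obtain ⟨c, hc⟩ := Nat.dvd_factorial hp'.pos (Nat.lt_of_mem_primesBelow hp).le
    have p2 : (2 : ℝ) ≤ p := by exact_mod_cast hp'.two_le
    rw [hc, Nat.mul_div_cancel_left _ hp'.pos]
    push_cast [Nat.cast_sub hp'.one_le]
    rw [show (1 : ℝ) / p * (p * c) ^ 2 = p * c ^ 2 by field_simp]
    nlinarith [sq_nonneg (c : ℝ)]
  · have l1 : (1 : ℝ) ≤ l' := by exact_mod_cast hl'
    have t := Real.isLittleO_log_id_atTop.bound (show (0 : ℝ) < 1 / (1100 * l' ^ 4) by positivity)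
    obtain ⟨N, hN⟩ := Filter.eventually_atTop.1 t
    obtain ⟨n, hn⟩ := exists_nat_ge (max N (1100 * l' ^ 4))
    have n1 : 1100 * (l' : ℝ) ^ 4 ≤ n := (le_max_right _ _).trans hn
    have l4 : (l' : ℝ) ^ 3 ≤ l' ^ 4 := pow_le_pow_right₀ l1 (by norm_num)
    have l3 : (l' : ℝ) ≤ l' ^ 3 := le_self_pow₀ l1 (by norm_num)
    have n2 : (1 : ℝ) ≤ n := by linarith
    have b1 : n ^ 3 ≤ n ^ k := Nat.pow_le_pow_right (by exact_mod_cast n2) hk
    have b2 : (n : ℝ) ^ 3 ≤ l' * autGrowth S (l' * n + l') + l' := by exact_mod_cast b1.trans (h' n)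
    have b3 := upper (l' * n + l')
    push_cast at b3
    have b4 : (l' : ℝ) * n + l' + 1 ≤ 3 * l' * n := by nlinarith
    have b5 := hN (3 * l' * n) (by nlinarith [le_max_left N (1100 * (l' : ℝ) ^ 4)])
    simp only [id, Real.norm_eq_abs] at b5
    rw [abs_of_nonneg (show (0 : ℝ) ≤ 3 * l' * n by positivity)] at b5
    have b6 : Real.log (l' * n + l' + 1) ≤ 1 / (1100 * l' ^ 4) * (3 * l' * n) :=
      (Real.log_le_log (by positivity) b4).trans ((le_abs_self _).trans b5)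
    have b7 : (autGrowth S (l' * n + l') : ℝ) ≤
        20 * (3 * l' * n) ^ 2 * (1 + 1 / (1100 * l' ^ 4) * (3 * l' * n)) := by
      refine b3.trans ?_
      have := Real.log_nonneg (show (1 : ℝ) ≤ l' * n + l' + 1 by nlinarith)
      gcongr
    have b8 : l' * (20 * (3 * l' * n) ^ 2 * (1 + 1 / (1100 * l' ^ 4) * (3 * l' * n))) =
        180 * l' ^ 3 * (n : ℝ) ^ 2 + 540 / 1100 * n ^ 3 := by field_simp; ring
    have b9 := mul_le_mul_of_nonneg_left b7 (show (0 : ℝ) ≤ l' by linarith)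
    have c1 : (1 : ℝ) ≤ n ^ 2 := one_le_pow₀ n2
    have c2 : 1100 * (l' : ℝ) ^ 3 * n ^ 2 ≤ n * n ^ 2 := by gcongr; linarith
    have c3 : (l' : ℝ) ≤ l' ^ 3 * n ^ 2 := by nlinarith
    nlinarith

end Pool.Agent.Results.MP_eff972_al.Full
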